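import Pool.Agent.H772R2.Bridge2

/-!
# The adiabatic Weyl formula for the signature operators fails for a foliation of the 3-torus

`M = T³ = ℝ³/ℤ³` with coordinates `(t, x, y)`; the foliation is given by the orbits of
`X = ∂_t + g(x) ∂_y` (`p = 1`, `q = 2`), and the metric makes `X, ∂_x, ∂_y` orthonormal.  The dual
coframe is `ω⁰ = dt`, `ω¹ = dx`, `ω² = dy - g dt`.  See `Pool.Agent.H772R2.Elem` for the
definitions.
-/

set_option autoImplicit false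
open scoped InnerProductSpace ENNReal ComplexConjugate ContDiff Topology
open MeasureTheory Set Filter Pool.Agent.H772R2

universe v

/-- There are a smooth `1`-periodic `g` and an even `f ∈ C_c^∞(ℝ)`, `f ≥ 0`, such that (the leaves
of `F_N` have no nontrivial loop with trivial holonomy, so their holonomy coverings are lines, and)
with `j : forms → H` the completion `L²(T³; Λ)`, `R h = (1 + (D_F + h D_H)²)⁻¹`, with
`i : C_c^∞(ℝ; Λ) → K` the completion `L²(ℝ; Λ)`, `Q ν = (1 + (D_{F_N} + σ(D_H))²)⁻¹` on the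
holonomy covering of the leaf of `F_N` through `ν`, and `k ν` the continuous kernel of
`f(D_{F_N} + σ(D_H))` there, the trace `trN k` is finite and `h² tr f(D_F + h D_H)` does not
converge to `(2π)⁻² tr_{F_N} f(D_{F_N} + σ(D_H))`; more precisely
`tr f(D_F + h D_H) ≥ (2π)⁻² h⁻² ∫ G + δ h⁻²` for small `h`, where `G` is a measurable majorant of
the pointwise trace of the kernel and `δ > 0`.  As `f` is even, `f(D) = F(D²)`, `F(x) = f(√x)`. -/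
theorem Pool.Agent.Results.MP_e0a138_an.SignatureWeylFails.result :
    ∃ (g f : ℝ → ℝ) (H K : Type) (_ : NormedAddCommGroup H) (_ : InnerProductSpace ℂ H)
      (_ : CompleteSpace H) (_ : NormedAddCommGroup K) (_ : InnerProductSpace ℂ K)
      (_ : CompleteSpace K) (j : (ℝ × ℝ × ℝ → Finset (Fin 3) → ℂ) → H) (R : ℝ → H →L[ℂ] H)
      (i : (ℝ → Finset (Fin 3) → ℂ) → K) (Q : (ℝ × ℝ × ℝ) × ℝ × ℝ → K →L[ℂ] K)
      (k : (ℝ × ℝ × ℝ) × ℝ × ℝ → ℝ → ℝ → Finset (Fin 3) → Finset (Fin 3) → ℂ),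
      ContDiff ℝ ∞ g ∧ Function.Periodic g 1 ∧ El.Geo g ∧
      ContDiff ℝ ∞ f ∧ HasCompactSupport f ∧ (∀ x, f (-x) = f x) ∧ (∀ x, 0 ≤ f x) ∧
      (∀ (ν : (ℝ × ℝ × ℝ) × ℝ × ℝ) (r : ℝ), r ≠ 0 →
        ¬ ∀ᶠ ν' in 𝓝 ν, El.SameT (El.flow g r ν') ν') ∧
      El.IsL2 El.FM El.ipM j ∧ (∀ h, El.IsRes El.FM El.ipM j (fun u => El.SigM g h (El.SigM g h u)) (R h)) ∧
      El.IsL2 El.FL El.ipL i ∧ (∀ ν, El.IsRes El.FL El.ipL i (fun φ => El.SigL g ν (El.SigL g ν φ)) (Q ν)) ∧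
      (∀ ν, El.IsKer i (El.fc (fun x => f (Real.sqrt x)) (Q ν)) (k ν)) ∧
      (∀ ν S, 0 ≤ (k ν 0 0 S S).re ∧ (k ν 0 0 S S).im = 0) ∧ El.trN k ≠ ⊤ ∧
      (∀ {ι : Type v} (b : HilbertBasis ι ℂ H),
        ¬ Tendsto (fun h => ENNReal.ofReal (h ^ 2) * El.tr b (El.fc (fun x => f (Real.sqrt x)) (R h)))
          (𝓝[>] (0 : ℝ)) (𝓝 (ENNReal.ofReal (((2 * Real.pi) ^ 2)⁻¹) * El.trN k))) ∧
      ∃ G : (ℝ × ℝ × ℝ) × ℝ × ℝ → ℝ≥0∞, Measurable G ∧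
        (∀ ν, ENNReal.ofReal (∑ S, (k ν 0 0 S S).re) ≤ G ν) ∧
        ∃ δ : ℝ, 0 < δ ∧ ∀ {ι : Type v} (b : HilbertBasis ι ℂ H), ∀ᶠ h in 𝓝[>] (0 : ℝ),
          ENNReal.ofReal (((2 * Real.pi) ^ 2)⁻¹ * (h ^ 2)⁻¹) *
            (∫⁻ ν in (Ico (0 : ℝ) 1 ×ˢ Ico (0 : ℝ) 1 ×ˢ Ico (0 : ℝ) 1) ×ˢ univ, G ν) +
            ENNReal.ofReal (δ * (h ^ 2)⁻¹) ≤ El.tr b (El.fc (fun x => f (Real.sqrt x)) (R h)) := by
  obtain ⟨g, hg, f, hp, hf, hfc, hfe, hf0, hol, k, hk, hk0, hkt, hnt, G, hG, hkG, δ, hδ, hfin⟩ :=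
    main_sig.{v}
  refine ⟨g, f, _, _, inferInstance, inferInstance, inferInstance, inferInstance, inferInstance,
    inferInstance, jM, fun h => resolv iM (sigOp g hg h), jL, fun ν => resolv iL (leafSig g ν),
    fun ν r s => mat (k ν r s), hg, hp, geo hg hp, hf, hfc, hfe, hf0, hol, isL2_M,
    isRes_sig hg hp, isL2_L, isRes_leafSig g, fun ν => isKer_of (hk ν),
    fun ν S => mat_nonneg (hk0 ν) S, ?_, fun {ι} b => ?_, G, hG, fun ν => ?_, δ, hδ,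
    fun {ι} b => ?_⟩
  · rw [trN_mat]; exact hkt
  · rw [trN_mat]; exact hnt b
  · rw [sum_mat]; exact hkG ν
  · rw [meas_eq]; exact hfin b
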